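import Pool.Agent.Lib_helper82.TPR.Base
import Pool.Agent.Lib_helper40.TDB.Tdp
import Pool.Agent.Lib_helper74.NE.Univ
import Pool.Agent.Lib_helper78.ADV.Base

/-!
# Trapdoor permutations relative to `(P ⊕ R) ⊕ H`, `H` an oracle with short strong advice
-/

set_option autoImplicit false

namespace Pool.Agent.TPR

open Pool.Agent.CK Pool.Agent.TD Pool.Agent.ADV Pool.Agent.CKP

theorem inFP_lift {O B : Lang} {f : Str → Str} (hf : InFP O f) : InFP (join O B) f :=
  inFP_of (ptime_of_inFP hf).lift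

theorem tdp_lift {O B : Lang} {G F K : Str → Str} (h : TrapdoorPermutations O G F K) :
    TrapdoorPermutations (join O B) G F K where
  inFP_G := inFP_lift h.inFP_G
  inFP_F := inFP_lift h.inFP_F
  inFP_H := inFP_lift h.inFP_H
  bij_G := h.bij_G
  bij_F := h.bij_F
  inv := h.inv

/-- the oracles `y ↦ A(y, v)` -/
def BA (A : Lang) (n : ℕ) : Set Lang := (fun v : Str => fun y => A (pairS y v)) '' {v | v.length ≤ n}

theorem log_le {n : ℕ} (hn : 51 ≤ n) : Nat.log 2 (Nat.log 2 (2 * n + 2 * T5 n)) ≤ n := by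
  refine (Nat.log_le_self _ _).trans ?_
  have h1 : T5 n ≤ 2 ^ (n - 2) := Nat.pow_le_pow_right (by norm_num) (by omega)
  have h2 : n - 2 < 2 ^ (n - 2) := Nat.lt_two_pow_self
  have h3 : (2 : ℕ) ^ n = 4 * 2 ^ (n - 2) := by
    obtain ⟨r, rfl⟩ : ∃ r, n = r + 2 := ⟨n - 2, by omega⟩
    rw [Nat.add_sub_cancel, pow_add]
    ring
  have h4 : (2 : ℕ) ^ (n + 1) = 8 * 2 ^ (n - 2) := by rw [pow_succ, h3]; ring
  have h5 : 2 * n + 2 * T5 n < 2 ^ (n + 1) := by omega
  have h6 := Nat.log_lt_of_lt_pow (by omega) h5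
  omega

theorem secure5 (A R : Lang) : ∃ S : Sec, ∀ (H : Lang) (w : ℕ → Str),
    (∀ n, (w n).length ≤ Nat.log 2 (Nat.log 2 n)) →
    (∀ (n : ℕ) (x : Str), x.length ≤ n → H x = A (pairS x (w n))) →
    Secure (join (join (O0 S) R) H) (GG S) (FF S) (fun n => 2 ^ (n / 5)) := by
  obtain ⟨S, hS⟩ := secrets5 R (BA A) (fun n => card_image _ (card_str n))
  refine ⟨S, fun H w hw1 hw2 c => ?_⟩
  filter_upwards [Filter.eventually_ge_atTop 51,
    Filter.eventually_ge_atTop (Encodable.encode c)] with n hn hc u hu t ht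
  have h1 := hS n hn (fun y => A (pairS y (w (2 * n + 2 * T5 n))))
    ⟨w (2 * n + 2 * T5 n), (hw1 _).trans (log_le hn), rfl⟩ c hc u hu t ht
  have e : succ5 S (join (join (O0 S) R) H) n c u t =
      succ5 S (join (join (O0 S) R) (fun y => A (pairS y (w (2 * n + 2 * T5 n))))) n c u t := by
    unfold succ5
    congr 1
    apply Finset.filter_congr
    intro x _
    rw [run_congr5 c x u hu t ht
      (O' := join (join (O0 S) R) (fun y => A (pairS y (w (2 * n + 2 * T5 n)))))]
    intro q hq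
    match q with
    | [] => rfl
    | false :: q => rfl
    | true :: q =>
      simp only [List.length_cons] at hq
      exact hw2 _ q (by omega)
  rw [← e] at h1
  unfold succ5 at h1
  rw [← inversions_eq] at h1
  exact h1

/-- Trapdoor permutations of exponential security above every oracle `R`, which survive every
oracle with short strong advice for `A`. -/
theorem tdp5 (A R : Lang) : ∃ (P : Lang) (G F K : Str → Str), ∀ (H : Lang) (w : ℕ → Str),
    (∀ n, (w n).length ≤ Nat.log 2 (Nat.log 2 n)) →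
    (∀ (n : ℕ) (x : Str), x.length ≤ n → H x = A (pairS x (w n))) →
    TrapdoorPermutations (join (join P R) H) G F K ∧
      Secure (join (join P R) H) G F (fun n => 2 ^ (n / 5)) := by
  obtain ⟨S, hS⟩ := secure5 A R
  exact ⟨O0 S, GG S, FF S, HH S, fun H w h1 h2 => ⟨tdp_lift (tdp_lift (tdp S _)), hS H w h1 h2⟩⟩

end Pool.Agent.TPR
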