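import Pool.Agent.Lib_helper40.TDB.PermD
import Pool.Agent.Lib_helper64.TDF.CPT
import Pool.Agent.Lib_helper64.TDF.AGR
import Pool.Agent.Lib_helper64.TDF.CDA
import Pool.Agent.Lib_helper74.CKF.MACH

/-!
# Exponentially secure trapdoor permutations in the presence of few further oracles (MP_5c38ab_lc)

Random secrets `S` defeat, at all levels `n ≥ 51`, all programs of size `n` with oracle `S ⊕ B`,
running time and advice at most `2 ^ (n / 5)`, where `B` is one of `2 ^ (n + 1)` given oracles.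
-/

set_option autoImplicit false

namespace Pool.Agent.TPR

open Pool.Agent.CK Pool.Agent.TD

/-- bound for time and advice -/
def T5 (n : ℕ) : ℕ := 2 ^ (n / 5)

/-- largest size of a hitting set -/
def k5 (n : ℕ) : ℕ := 2 ^ (n / 2 + 3)

/-- exponent of the number of adversaries -/
def a5 (n : ℕ) : ℕ := 2 * T5 n + 2 * n + 4

theorem num5_a (n : ℕ) : 18 * 2 ^ n ≤ k5 n ^ 2 := by
  have e : k5 n ^ 2 = 2 ^ (2 * (n / 2 + 3)) := by
    rw [k5, ← pow_mul, mul_comm]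
  rw [e]
  calc 18 * 2 ^ n ≤ 32 * 2 ^ n := Nat.mul_le_mul_right _ (by norm_num)
    _ = 2 ^ (n + 5) := by rw [pow_add]; ring
    _ ≤ _ := Nat.pow_le_pow_right (by norm_num) (by omega)

theorem num5_lin (m : ℕ) : 4 * m + 8 ≤ 2 ^ (m + 3) := by
  have h : m < 2 ^ m := Nat.lt_two_pow_self
  have e : (2 : ℕ) ^ (m + 3) = 8 * 2 ^ m := by rw [pow_add]; ring
  omega

theorem num5_b (n : ℕ) (h : 51 ≤ n) : a5 n + 2 * n + 3 ≤ k5 n := by
  have h1 : T5 n ≤ 2 ^ (n / 2) := Nat.pow_le_pow_right (by norm_num) (by omega)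
  have h2 := num5_lin (n / 2)
  have h3 : (2 : ℕ) ^ (n / 2 + 3) = 2 * 2 ^ (n / 2) + 6 * 2 ^ (n / 2) := by rw [pow_add]; ring
  have h4 : n / 2 < 2 ^ (n / 2) := Nat.lt_two_pow_self
  have h5 : 7 * (n / 2) + 12 ≤ 6 * 2 ^ (n / 2) + 6 * (n / 2) := by
    have h6 : (2 : ℕ) ^ 4 ≤ 2 ^ (n / 2) := Nat.pow_le_pow_right (by norm_num) (by omega)
    omega
  have h7 : 25 ≤ n / 2 := by omega
  have h8 : 4 * n + 7 ≤ 6 * 2 ^ (n / 2) := by
    obtain ⟨r, hr⟩ : ∃ r, n / 2 = r + 4 := ⟨n / 2 - 4, by omega⟩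
    have h9 : r < 2 ^ r := Nat.lt_two_pow_self
    have h10 : (2 : ℕ) ^ (n / 2) = 16 * 2 ^ r := by rw [hr, pow_add]; ring
    omega
  unfold a5 k5
  omega

theorem num5_c (n : ℕ) (h : 51 ≤ n) :
    T5 n * (2 ^ n * (k5 n * (T5 n + 2)) + 2 ^ n * (k5 n * (T5 n + 2))) < 4 ^ n := by
  have h1 : T5 n + 2 ≤ 2 ^ (n / 5 + 1) := by
    have : 2 ^ 1 ≤ T5 n := Nat.pow_le_pow_right (by norm_num) (by omega)
    have e : (2 : ℕ) ^ (n / 5 + 1) = T5 n + T5 n := by rw [pow_succ, T5]; ring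
    omega
  have h4 : (4 : ℕ) ^ n = 2 ^ (2 * n) := by rw [pow_mul]; norm_num
  have h5 : 2 ^ (2 * n - 1) < 2 ^ (2 * n) := Nat.pow_lt_pow_right (by norm_num) (by omega)
  rw [h4]
  refine lt_of_le_of_lt ?_ h5
  calc T5 n * (2 ^ n * (k5 n * (T5 n + 2)) + 2 ^ n * (k5 n * (T5 n + 2)))
      = T5 n * 2 ^ (n + 1) * k5 n * (T5 n + 2) := by rw [pow_succ]; ring
    _ ≤ T5 n * 2 ^ (n + 1) * k5 n * 2 ^ (n / 5 + 1) := Nat.mul_le_mul_left _ h1
    _ = 2 ^ (n / 5 + (n + 1) + (n / 2 + 3) + (n / 5 + 1)) := by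
        rw [T5, k5, ← pow_add, ← pow_add, ← pow_add]
    _ ≤ _ := Nat.pow_le_pow_right (by norm_num) (by omega)

/-- small families -/
def Bdd5 (Fm : Fam) : Prop := ∀ n, 51 ≤ n → CardBd (Fm n) (a5 n) ∧ ∀ A ∈ Fm n, ∀ x, (A x).depth ≤ T5 n

/-- Base case: there are secrets that defeat a given small family of adversaries. -/
theorem base5 (Nh : ℕ) (Fm : Fam) (hBd : Bdd5 Fm) (hemp : ∀ n, Nh < n → Fm n = ∅) :
    ∃ S : Sec, ∀ n, 51 ≤ n → ∀ A ∈ Fm n, T5 n * hits n (vv S n) A (O0 S) < 4 ^ n := by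
  classical
  by_contra hno
  have hbad : ∀ ω : OM Nh, ∃ n : Fin (Nh + 1), 51 ≤ (n : ℕ) ∧ ∃ A ∈ Fm n,
      (∃ y, k5 n * (T5 n + 2) ≤ hG (SO Nh ω) n A y) ∨
        ∃ pk, k5 n * (T5 n + 2) ≤ hF (SO Nh ω) n A pk := by
    intro ω
    by_contra h
    refine hno ⟨SO Nh ω, fun n hn0 A hA => ?_⟩
    have hnN : n < Nh + 1 := by
      by_contra hc
      rw [hemp n (by omega)] at hA
      exact hA
    have hall : (∀ y, hG (SO Nh ω) n A y < k5 n * (T5 n + 2)) ∧
        ∀ pk, hF (SO Nh ω) n A pk < k5 n * (T5 n + 2) := by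
      constructor
      · intro y
        by_contra hc
        exact h ⟨⟨n, hnN⟩, hn0, A, hA, Or.inl ⟨y, not_lt.1 hc⟩⟩
      · intro pk
        by_contra hc
        exact h ⟨⟨n, hnN⟩, hn0, A, hA, Or.inr ⟨pk, not_lt.1 hc⟩⟩
    have h1 := hits_le (SO Nh ω) n A
    have h2 : ∑ y, hG (SO Nh ω) n A y ≤ 2 ^ n * (k5 n * (T5 n + 2)) := by
      refine (Finset.sum_le_sum fun y _ => (hall.1 y).le).trans ?_
      rw [Finset.sum_const, Finset.card_univ, card_X_TD, smul_eq_mul]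
    have h3 : ∑ y, hF (SO Nh ω) n A y ≤ 2 ^ n * (k5 n * (T5 n + 2)) := by
      refine (Finset.sum_le_sum fun y _ => (hall.2 y).le).trans ?_
      rw [Finset.sum_const, Finset.card_univ, card_X_TD, smul_eq_mul]
    refine lt_of_le_of_lt ?_ (num5_c n hn0)
    exact Nat.mul_le_mul_left _ (h1.trans (Nat.add_le_add h2 h3))
  have hcov : (Finset.univ : Finset (OM Nh)) ⊆
      (Finset.univ : Finset (Fin (Nh + 1))).biUnion fun n =>
        if 51 ≤ (n : ℕ) then Finset.univ.filter fun ω : OM Nh => ∃ A ∈ Fm n,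
          (∃ y, k5 n * (T5 n + 2) ≤ hG (SO Nh ω) n A y) ∨
            ∃ pk, k5 n * (T5 n + 2) ≤ hF (SO Nh ω) n A pk else ∅ := by
    intro ω _
    obtain ⟨n, hn0, h⟩ := hbad ω
    refine Finset.mem_biUnion.2 ⟨n, Finset.mem_univ _, ?_⟩
    rw [if_pos hn0]
    exact Finset.mem_filter.2 ⟨Finset.mem_univ _, h⟩
  have hone : ∀ n : Fin (Nh + 1), ((if 51 ≤ (n : ℕ) then Finset.univ.filter fun ω : OM Nh =>
      ∃ A ∈ Fm n, (∃ y, k5 n * (T5 n + 2) ≤ hG (SO Nh ω) n A y) ∨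
        ∃ pk, k5 n * (T5 n + 2) ≤ hF (SO Nh ω) n A pk else ∅ : Finset (OM Nh)).card : ℝ) ≤
      (Fintype.card (OM Nh) : ℝ) / 4 * (1 / 2) ^ (n : ℕ) := by
    intro n
    by_cases hn0 : 51 ≤ (n : ℕ)
    · rw [if_pos hn0]
      have hB := hBd n hn0
      have h := base_level Nh n (Fm n) hB.1.1 (a5 n) (T5 n) (k5 n) hB.1.2
        (fun A hA x => hB.2 A hA x) (num5_a n) (num5_b n hn0)
      have h' : (2 : ℝ) ^ ((n : ℕ) + 2) * ((Finset.univ.filter fun ω : OM Nh => ∃ A ∈ Fm n,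
          (∃ y, k5 n * (T5 n + 2) ≤ hG (SO Nh ω) n A y) ∨
            ∃ pk, k5 n * (T5 n + 2) ≤ hF (SO Nh ω) n A pk).card : ℝ) ≤
          (Fintype.card (OM Nh) : ℝ) := by exact_mod_cast h
      have e : (1 / 2 : ℝ) ^ (n : ℕ) * 2 ^ ((n : ℕ) + 2) = 4 := by
        rw [pow_add, ← mul_assoc, ← mul_pow]; norm_num
      have hp : (0 : ℝ) < 2 ^ ((n : ℕ) + 2) := by positivity
      rw [← mul_le_mul_iff_right₀ hp]
      refine h'.trans (le_of_eq ?_)
      calc (Fintype.card (OM Nh) : ℝ) = (Fintype.card (OM Nh) : ℝ) / 4 *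
            ((1 / 2 : ℝ) ^ (n : ℕ) * 2 ^ ((n : ℕ) + 2)) := by rw [e]; ring
        _ = _ := by ring
    · rw [if_neg hn0]
      simp only [Finset.card_empty, Nat.cast_zero]
      positivity
  have hsum := (Finset.card_le_card hcov).trans Finset.card_biUnion_le
  rw [Finset.card_univ] at hsum
  have hsum' : (Fintype.card (OM Nh) : ℝ) ≤ ∑ n : Fin (Nh + 1),
      (Fintype.card (OM Nh) : ℝ) / 4 * (1 / 2) ^ (n : ℕ) := by
    refine le_trans ?_ (Finset.sum_le_sum fun n _ => hone n)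
    rw [← Nat.cast_sum]
    exact_mod_cast hsum
  rw [← Finset.mul_sum, Fin.sum_univ_eq_sum_range fun n => (1 / 2 : ℝ) ^ n] at hsum'
  have hg := sum_geometric_two_le (Nh + 1)
  have hpos : (0 : ℝ) < Fintype.card (OM Nh) := by
    have : Nonempty (OM Nh) := ⟨(fun _ => 1, fun _ _ => 1)⟩
    exact_mod_cast Fintype.card_pos
  have h5 : (Fintype.card (OM Nh) : ℝ) / 4 * ∑ i ∈ Finset.range (Nh + 1), (1 / 2 : ℝ) ^ i ≤
      (Fintype.card (OM Nh) : ℝ) / 4 * 2 := mul_le_mul_of_nonneg_left hg (by positivity)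
  linarith

/-- The tree with the queries to the right part of the join answered by `B`. -/
def hw {β : Type} (B : Lang) (t : DT β) : DT β := DT.tr (fun q => DT.leaf (B q)) t

theorem eval_hw {β : Type} (O B : Lang) (t : DT β) : (hw B t).eval O = t.eval (join O B) :=
  DT.eval_tr O _ t

theorem depth_hw {β : Type} (B : Lang) (t : DT β) : (hw B t).depth ≤ t.depth := by
  have h := DT.depth_tr (fun q => DT.leaf (B q)) t 1 le_rfl (fun q => Nat.zero_le _)
  rwa [mul_one] at h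

/-- The adversaries of level `n` with the further oracles `R` and one of the set `BB n`. -/
def FinB (R : Lang) (BB : ℕ → Set Lang) (N : ℕ) : Fam := fun n =>
  {A | n ≤ N ∧ ∃ c : Cmd, Encodable.encode c ≤ n ∧ ∃ w : Str, w.length ≤ T5 n ∧
    ∃ t ≤ T5 n, ∃ B ∈ BB n, A = fun x =>
      hw R (hw B ((runTree t ([c], init x.1 w)).map fun cf => cf.2 0))}

theorem finB_bdd (R : Lang) (BB : ℕ → Set Lang) (hB : ∀ n, CardBd (BB n) (n + 1)) (N : ℕ) :
    Bdd5 (FinB R BB N) := by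
  intro n hn
  constructor
  · have hc := card_image (fun p : ((ℕ × Str) × ℕ) × Lang => fun x : X (2 * n) =>
      hw R (hw p.2 ((runTree p.1.2 ([(Encodable.decode p.1.1.1 : Option Cmd).getD Cmd.skip],
          init x.1 p.1.1.2)).map fun cf => cf.2 0)))
      (card_prod (card_prod (card_prod (card_nat n) (card_str (T5 n))) (card_nat (T5 n))) (hB n))
    refine card_mono hc ?_ ?_
    · rintro A ⟨_, c, hcn, w, hw, t, ht, B, hBn, rfl⟩
      refine ⟨(((Encodable.encode c, w), t), B), ⟨⟨⟨hcn, hw⟩, ht⟩, hBn⟩, ?_⟩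
      funext x
      simp only [Encodable.encodek, Option.getD_some]
    · unfold a5
      omega
  · rintro A ⟨_, c, hcn, w, hw, t, ht, B, hBn, rfl⟩ x
    refine (depth_hw _ _).trans ((depth_hw _ _).trans ?_)
    rw [DT.depth_map]
    exact (mach_depth_runTree _ _).trans ht

/-- number of challenges of level `n` on which the program succeeds -/
noncomputable def succ5 (S : Sec) (O : Lang) (n : ℕ) (c : Cmd) (w : Str) (t : ℕ) : ℕ :=
  (Finset.univ.filter fun x : X (2 * n) => (run O c x.1 w t).2 0 = vv S n x).card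

theorem hits_tr (S : Sec) (O R B : Lang) (n : ℕ) (c : Cmd) (w : Str) (t : ℕ) :
    hits n (vv S n) (fun x => hw R (hw B ((runTree t ([c], init x.1 w)).map fun cf => cf.2 0)))
      O = succ5 S (join (join O R) B) n c w t := by
  unfold hits succ5
  congr 1
  apply Finset.filter_congr
  intro x _
  rw [eval_hw, eval_hw, DT.eval_map, mach_eval_runTree]
  rfl

/-- runs only see short strings -/
theorem run_congr5 {O O' : Lang} {n : ℕ} (c : Cmd) (x : X (2 * n)) (w : Str)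
    (hw : w.length ≤ T5 n) (t : ℕ) (ht : t ≤ T5 n)
    (h : ∀ q : Str, q.length ≤ 2 * n + 2 * T5 n → O q = O' q) :
    run O c x.1 w t = run O' c x.1 w t := by
  unfold run
  rw [← mach_eval_runTree, ← mach_eval_runTree]
  refine DT.eval_congr _ _ (mach_allQ_runTree t _ (2 * n + T5 n) (2 * n + 2 * T5 n)
    (mach_init_len x.1 w _ ?_ ?_) (by omega)) fun q hq => h q hq.le
  · rw [x.2]; omega
  · omega

/-- Trapdoor permutations that are exponentially secure in the presence of `R` and any of the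
oracles in `BB n`. -/
theorem secrets5 (R : Lang) (BB : ℕ → Set Lang) (hB : ∀ n, CardBd (BB n) (n + 1)) :
    ∃ S : Sec, ∀ n, 51 ≤ n → ∀ B ∈ BB n, ∀ c : Cmd, Encodable.encode c ≤ n →
      ∀ w : Str, w.length ≤ T5 n → ∀ t ≤ T5 n,
        T5 n * succ5 S (join (join (O0 S) R) B) n c w t < 4 ^ n := by
  have hor : ∀ N : ℕ, ∃ S : Sec, ∀ n, 51 ≤ n → n ≤ N → ∀ B ∈ BB n, ∀ c : Cmd,
      Encodable.encode c ≤ n → ∀ w : Str, w.length ≤ T5 n → ∀ t ≤ T5 n,
        T5 n * succ5 S (join (join (O0 S) R) B) n c w t < 4 ^ n := by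
    intro N
    obtain ⟨S, hS⟩ := base5 N (FinB R BB N) (finB_bdd R BB hB N) (fun n hn => by
      rw [Set.eq_empty_iff_forall_notMem]
      rintro A ⟨h1, _⟩
      omega)
    refine ⟨S, fun n hn hnN B hBn c hc w hw t ht => ?_⟩
    rw [← hits_tr]
    exact hS n hn _ ⟨hnN, c, hc, w, hw, t, ht, B, hBn, rfl⟩
  choose Ss hSs using hor
  obtain ⟨S, Tab, -, hag⟩ := compactness Ss (fun _ _ _ => []) (fun _ _ _ => Nat.zero_le _)
  refine ⟨S, fun n hn B hBn c hc w hw t ht => ?_⟩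
  obtain ⟨N, hbN, hN, -⟩ := hag (2 * n + 2 * T5 n)
  have hag' : Agree (2 * n + 2 * T5 n) S (Ss N) (fun _ _ => []) (fun _ _ => []) :=
    ⟨hN, fun _ _ _ _ => rfl⟩
  have h1 := hSs N n hn (by omega) B hBn c hc w hw t ht
  have e : succ5 S (join (join (O0 S) R) B) n c w t =
      succ5 (Ss N) (join (join (O0 (Ss N)) R) B) n c w t := by
    unfold succ5
    have hv : vv S n = vv (Ss N) n := agr_vv (hN n (by omega)).2
    congr 1
    apply Finset.filter_congr
    intro x _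
    rw [hv, run_congr5 c x w hw t ht (O' := join (join (O0 (Ss N)) R) B)]
    intro q hq
    match q with
    | [] => rfl
    | true :: q => rfl
    | [false] => rfl
    | false :: true :: q => rfl
    | false :: false :: q =>
      simp only [List.length_cons] at hq
      exact orc_agree hag' q (by omega)
  rw [e]
  exact h1

end Pool.Agent.TPR
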